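import Pool.Agent.Lib.MP_2d002d_gt.PM.Interfaces
import Pool.Agent.Lib.MP_2c1b2b_gt.H32.PL

/-!
MARG: the marginal of an even log-concave function on a coordinate.
-/

set_option autoImplicit false

open MeasureTheory Set Filter Topology
open scoped ENNReal

namespace Pool.Agent.Lib.MP_2d002d_gt.PM.H87

open Pool.Agent.Lib.MP_2c1b2b_gt.H32 (pl_fin)

/-- the integral in the coordinates other than `i` -/
lemma lintegral_split {m : ℕ} (i : Fin (m + 1)) (G : (Fin (m + 1) → ℝ) → ℝ≥0∞)
    (hG : Measurable G) :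
    ∫⁻ x, G x = ∫⁻ a : ℝ, ∫⁻ y : Fin m → ℝ, G (i.insertNth a y) := by
  have e := (volume_preserving_piFinSuccAbove (fun _ : Fin (m + 1) => ℝ) i).symm
  rw [← e.lintegral_comp hG]
  rw [show (volume : Measure (ℝ × (Fin m → ℝ))) = (volume : Measure ℝ).prod volume from rfl]
  exact lintegral_prod
    (fun z => G ((MeasurableEquiv.piFinSuccAbove (fun _ : Fin (m + 1) => ℝ) i).symm z))
    (hG.comp e.measurable).aemeasurable

lemma measurable_ins {m : ℕ} (i : Fin (m + 1)) :
    Measurable (fun p : ℝ × (Fin m → ℝ) => (i.insertNth p.1 p.2 : Fin (m + 1) → ℝ)) :=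
  (MeasurableEquiv.piFinSuccAbove (fun _ : Fin (m + 1) => ℝ) i).symm.measurable

lemma ins_comb {m : ℕ} (i : Fin (m + 1)) (a b x y : ℝ) (u v : Fin m → ℝ) :
    (i.insertNth (a * x + b * y) (a • u + b • v) : Fin (m + 1) → ℝ) =
      a • (i.insertNth x u : Fin (m + 1) → ℝ) + b • (i.insertNth y v : Fin (m + 1) → ℝ) := by
  ext l
  refine Fin.succAboveCases i ?_ (fun j => ?_) l
  · simp
  · simp

lemma ins_neg {m : ℕ} (i : Fin (m + 1)) (x : ℝ) (u : Fin m → ℝ) :
    (i.insertNth (-x) (-u) : Fin (m + 1) → ℝ) = -(i.insertNth x u : Fin (m + 1) → ℝ) := by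
  ext l
  refine Fin.succAboveCases i ?_ (fun j => ?_) l
  · simp
  · simp

theorem marg : MARG_S := by
  intro n F i hF hL hE
  obtain _ | m := n
  · exact i.elim0
  have hm : Measurable fun p : ℝ × (Fin m → ℝ) => F (i.insertNth p.1 p.2) :=
    hF.comp (measurable_ins i)
  refine ⟨fun a => ∫⁻ y : Fin m → ℝ, F (i.insertNth a y), hm.lintegral_prod_right', ?_, ?_, ?_⟩
  · intro a
    have h := (Measure.measurePreserving_neg (volume : Measure (Fin m → ℝ))).lintegral_comp
      (hm.comp (measurable_prodMk_left (x := -a)))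
    change ∫⁻ y : Fin m → ℝ, F (i.insertNth (-a) y) = ∫⁻ y : Fin m → ℝ, F (i.insertNth a y)
    refine h.symm.trans (lintegral_congr fun y => ?_)
    change F (i.insertNth (-a) (-y)) = F (i.insertNth a y)
    rw [ins_neg, hE]
  · intro t ht0 ht1 x y
    refine pl_fin m t ht0 ht1 _ _ _ (hm.comp measurable_prodMk_left)
      (hm.comp measurable_prodMk_left) (hm.comp measurable_prodMk_left) ?_
    intro u v
    have h := hL t ht0 ht1 (i.insertNth x u) (i.insertNth y v)
    refine h.trans (le_of_eq ?_)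
    simp only [smul_eq_mul]
    rw [ins_comb]
  · intro g hg
    have h1 : Measurable fun x : Fin (m + 1) → ℝ => g (x i) * F x :=
      (hg.comp (measurable_pi_apply i)).mul hF
    rw [lintegral_split i _ h1]
    refine lintegral_congr fun a => ?_
    simp only [Fin.insertNth_apply_same]
    exact lintegral_const_mul _ (hm.comp measurable_prodMk_left)

end Pool.Agent.Lib.MP_2d002d_gt.PM.H87
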